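import Mathlib

/-!
# Graphs which are triangle and co-triangle: small cliques and stable sets are strong (MP_de1832_co)

Let `C` be a maximal clique and `S` a maximal stable set of a graph which is triangle and co-triangle, `C ∩ S = ∅`.
For `s ∈ S` let `D(s)` be the set of the `c ∈ C` which are not adjacent to `s`; it is not empty. `D(s)` and
`D(s')` meet for `s, s' ∈ S` (co-triangle), and for every `P ⊆ C` with at most two elements some `s ∈ S` is
adjacent to all of `P` (triangle), that is `D(s) ⊆ C \ P`. So `C` is not the union of two such sets `P`, i.e.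
`|C| ≥ 5`, and for `|C| = 5` all ten sets `C \ P`, `|P| = 2`, occur as `D(s)`, so `|S| ≥ 10`.
-/

set_option autoImplicit false

namespace Pool.Agent.Lib.MPde1832.SC

universe u

/-- `G` is a triangle graph: for every maximal stable set `S` and every edge `uv` of `G - S`,
some vertex of `S` is adjacent to both `u` and `v`. -/
def Tri {V : Type u} (G : SimpleGraph V) : Prop :=
  ∀ S : Set V, Maximal (fun T : Set V => G.IsIndepSet T) S →
    ∀ u v : V, u ∉ S → v ∉ S → G.Adj u v → ∃ w ∈ S, G.Adj w u ∧ G.Adj w v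

variable {V : Type u} {G : SimpleGraph V}

/-- A vertex outside a maximal stable set has a neighbour in it. -/
lemma exists_adj {S : Set V} (hS : Maximal (fun T : Set V => G.IsIndepSet T) S) {v : V}
    (hv : v ∉ S) : ∃ s ∈ S, G.Adj s v := by
  by_contra h
  push Not at h
  have h1 : G.IsIndepSet (insert v S) := by
    intro x hx y hy hxy
    rcases hx with rfl | hx <;> rcases hy with rfl | hy
    · exact absurd rfl hxy
    · exact fun h2 => h y hy h2.symm
    · exact h x hx
    · exact hS.prop hx hy hxy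
  exact hv (hS.le_of_ge h1 (Set.subset_insert v S) (Set.mem_insert v S))

/-- A vertex outside a maximal clique has a non-neighbour in it. -/
lemma exists_not_adj {C : Set V} (hC : Maximal (fun T : Set V => G.IsClique T) C) {v : V}
    (hv : v ∉ C) : ∃ c ∈ C, ¬ G.Adj c v := by
  by_contra h
  push Not at h
  have h1 : G.IsClique (insert v C) := by
    intro x hx y hy hxy
    rcases hx with rfl | hx <;> rcases hy with rfl | hy
    · exact absurd rfl hxy
    · exact (h y hy).symm
    · exact h x hx
    · exact hC.prop hx hy hxy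
  exact hv (hC.le_of_ge h1 (Set.subset_insert v C) (Set.mem_insert v C))

lemma maximal_compl {C : Set V} (hC : Maximal (fun T : Set V => G.IsClique T) C) :
    Maximal (fun T : Set V => Gᶜ.IsIndepSet T) C := by
  have h : (fun T : Set V => Gᶜ.IsIndepSet T) = fun T : Set V => G.IsClique T := by
    funext T
    exact propext (SimpleGraph.isIndepSet_compl G)
  rw [h]
  exact hC

lemma maximal_compl' {S : Set V} (hS : Maximal (fun T : Set V => G.IsIndepSet T) S) :
    Maximal (fun T : Set V => Gᶜ.IsClique T) S := by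
  have h : (fun T : Set V => Gᶜ.IsClique T) = fun T : Set V => G.IsIndepSet T := by
    funext T
    exact propext (SimpleGraph.isClique_compl G)
  rw [h]
  exact hS

section core

variable {C S : Finset V} (ht : Tri G) (hc : Tri Gᶜ)
  (hC : Maximal (fun T : Set V => G.IsClique T) (C : Set V))
  (hS : Maximal (fun T : Set V => G.IsIndepSet T) (S : Set V)) (hd : ∀ x ∈ C, x ∉ S)

include ht hS hd hC in
/-- At most two elements of `C` have a common neighbour in `S`. -/
lemma common (hne : S.Nonempty) {P : Finset V} (hP : P ⊆ C) (h2 : P.card ≤ 2) :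
    ∃ s ∈ S, ∀ c ∈ P, G.Adj s c := by
  classical
  have h3 : P.card = 0 ∨ P.card = 1 ∨ P.card = 2 := by omega
  rcases h3 with h3 | h3 | h3
  · obtain ⟨s, hs⟩ := hne
    refine ⟨s, hs, fun c hc' => ?_⟩
    rw [Finset.card_eq_zero.1 h3] at hc'
    simp at hc'
  · obtain ⟨c, rfl⟩ := Finset.card_eq_one.1 h3
    have h4 : c ∈ C := hP (Finset.mem_singleton_self c)
    obtain ⟨s, hs, h5⟩ := exists_adj hS (v := c) (by simpa using hd c h4)
    refine ⟨s, by simpa using hs, fun c' h6 => ?_⟩
    rw [Finset.mem_singleton.1 h6]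
    exact h5
  · obtain ⟨c, c', hcc, rfl⟩ := Finset.card_eq_two.1 h3
    have h4 : c ∈ C := hP (by simp)
    have h5 : c' ∈ C := hP (by simp)
    obtain ⟨s, hs, h6, h7⟩ := ht (S : Set V) hS c c' (by simpa using hd c h4)
      (by simpa using hd c' h5) (hC.prop (by simpa using h4) (by simpa using h5) hcc)
    refine ⟨s, by simpa using hs, fun x hx => ?_⟩
    rcases Finset.mem_insert.1 hx with rfl | hx
    · exact h6
    · rw [Finset.mem_singleton.1 hx]
      exact h7

include ht hc hC hS hd in
/-- `C` is not the union of two sets `P`, `Q` with at most two elements. -/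
lemma no_split (hne : S.Nonempty) {P Q : Finset V} (hP : P ⊆ C) (hQ : Q ⊆ C) (hP2 : P.card ≤ 2)
    (hQ2 : Q.card ≤ 2) (h : ∀ x ∈ C, x ∈ P ∨ x ∈ Q) : False := by
  obtain ⟨s, hs, hsP⟩ := common ht hC hS hd hne hP hP2
  obtain ⟨t, htS, htQ⟩ := common ht hC hS hd hne hQ hQ2
  have hsC : s ∉ C := fun h1 => hd s h1 hs
  have htC : t ∉ C := fun h1 => hd t h1 htS
  by_cases hst : s = t
  · subst hst
    obtain ⟨c, hcC, h2⟩ := exists_not_adj hC (v := s) (by simpa using hsC)
    have hcC' : c ∈ C := by simpa using hcC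
    rcases h c hcC' with h3 | h3
    · exact h2 (hsP c h3).symm
    · exact h2 (htQ c h3).symm
  · have h1 : ¬ G.Adj s t := hS.prop (by simpa using hs) (by simpa using htS) hst
    obtain ⟨w, hw, h2, h3⟩ := hc (C : Set V) (maximal_compl hC) s t (by simpa using hsC)
      (by simpa using htC) (by
        rw [SimpleGraph.compl_adj]
        exact ⟨hst, h1⟩)
    rw [SimpleGraph.compl_adj] at h2 h3
    rcases h w (by simpa using hw) with h4 | h4
    · exact h2.2 (hsP w h4).symm
    · exact h3.2 (htQ w h4).symm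

include ht hc hC hS hd in
/-- `C` has at least five elements. -/
lemma five_le (hne : S.Nonempty) : 5 ≤ C.card := by
  classical
  by_contra h
  push Not at h
  obtain ⟨P, hP, hP2⟩ := Finset.exists_subset_card_eq (s := C) (n := min 2 C.card)
    (min_le_right _ _)
  refine no_split ht hc hC hS hd hne hP (Finset.sdiff_subset (s := C) (t := P))
    (by rw [hP2]; exact min_le_left _ _) ?_ ?_
  · rw [Finset.card_sdiff_of_subset hP, hP2]
    omega
  · intro x hx
    by_cases h1 : x ∈ P
    · exact Or.inl h1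
    · exact Or.inr (Finset.mem_sdiff.2 ⟨hx, h1⟩)

include ht hc hC hS hd in
/-- If `C` has five elements then `S` has at least ten. -/
lemma ten_le (hne : S.Nonempty) (h5 : C.card = 5) : 10 ≤ S.card := by
  classical
  have h1 : ∀ P : Finset V, ∃ s : V, P ∈ C.powersetCard 2 → s ∈ S ∧ ∀ c ∈ P, G.Adj s c := by
    intro P
    by_cases hP : P ∈ C.powersetCard 2
    · rw [Finset.mem_powersetCard] at hP
      obtain ⟨s, hs, h⟩ := common ht hC hS hd hne hP.1 hP.2.le
      exact ⟨s, fun _ => ⟨hs, h⟩⟩
    · exact ⟨hne.choose, fun h => absurd h hP⟩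
  choose f hf using h1
  -- the elements of `C` adjacent to `f P` are those of `P`
  have h2 : ∀ P ∈ C.powersetCard 2, ∀ c ∈ C, G.Adj (f P) c → c ∈ P := by
    intro P hP c hcC hadj
    by_contra hcP
    have hP' := Finset.mem_powersetCard.1 hP
    obtain ⟨hs, hsP⟩ := hf P hP
    -- the set `Q` of the elements of `C` not adjacent to `f P` has at most two elements
    set Q : Finset V := (C \ P).erase c with hQ
    have hcs : c ∈ C \ P := Finset.mem_sdiff.2 ⟨hcC, hcP⟩
    have hQC : Q ⊆ C := (Finset.erase_subset _ _).trans Finset.sdiff_subset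
    have hQ2 : Q.card ≤ 2 := by
      rw [hQ, Finset.card_erase_of_mem hcs, Finset.card_sdiff_of_subset hP'.1, h5, hP'.2]
    obtain ⟨t, htS, htQ⟩ := common ht hC hS hd hne hQC hQ2
    have hcov : ∀ x ∈ C, G.Adj (f P) x ∨ x ∈ Q := by
      intro x hx
      by_cases hxP : x ∈ P
      · exact Or.inl (hsP x hxP)
      · by_cases hxc : x = c
        · subst hxc
          exact Or.inl hadj
        · exact Or.inr (Finset.mem_erase.2 ⟨hxc, Finset.mem_sdiff.2 ⟨hx, hxP⟩⟩)
    have hsC : f P ∉ C := fun h1 => hd _ h1 hs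
    have htC : t ∉ C := fun h1 => hd t h1 htS
    by_cases hst : f P = t
    · obtain ⟨x, hxC, h3⟩ := exists_not_adj hC (v := f P) (by simpa using hsC)
      rcases hcov x (by simpa using hxC) with h4 | h4
      · exact h3 h4.symm
      · rw [hst] at h3
        exact h3 (htQ x h4).symm
    · have h1 : ¬ G.Adj (f P) t := hS.prop (by simpa using hs) (by simpa using htS) hst
      obtain ⟨w, hw, h3, h4⟩ := hc (C : Set V) (maximal_compl hC) (f P) t (by simpa using hsC)
        (by simpa using htC) (by
          rw [SimpleGraph.compl_adj]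
          exact ⟨hst, h1⟩)
      rw [SimpleGraph.compl_adj] at h3 h4
      rcases hcov w (by simpa using hw) with h6 | h6
      · exact h3.2 h6.symm
      · exact h4.2 (htQ w h6).symm
  have hinj : Set.InjOn f (C.powersetCard 2 : Finset (Finset V)) := by
    intro P hP Q hQ hPQ
    have hP1 : P ∈ C.powersetCard 2 := by simpa using hP
    have hQ1 : Q ∈ C.powersetCard 2 := by simpa using hQ
    have hsub : P ⊆ Q := by
      intro x hx
      have h3 := (hf P hP1).2 x hx
      rw [hPQ] at h3
      exact h2 Q hQ1 x ((Finset.mem_powersetCard.1 hP1).1 hx) h3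
    exact Finset.eq_of_subset_of_card_le hsub (by
      rw [(Finset.mem_powersetCard.1 hP1).2, (Finset.mem_powersetCard.1 hQ1).2])
  have hcard : (C.powersetCard 2).card = 10 := by
    rw [Finset.card_powersetCard, h5]
    rfl
  rw [← hcard, ← Finset.card_image_of_injOn hinj]
  exact Finset.card_le_card (by
    intro s hs
    obtain ⟨P, hP, rfl⟩ := Finset.mem_image.1 hs
    exact (hf P hP).1)

end core

/-- Disjoint maximal clique `C` and maximal stable set `S`. -/
theorem disjoint_pair [Fintype V] [Nonempty V] (ht : Tri G) (hc : Tri Gᶜ) {C S : Set V}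
    (hC : Maximal (fun T : Set V => G.IsClique T) C)
    (hS : Maximal (fun T : Set V => G.IsIndepSet T) S) (hd : ¬ (C ∩ S).Nonempty) :
    5 ≤ C.ncard ∧ (C.ncard = 5 → 10 ≤ S.ncard) := by
  classical
  obtain ⟨C', rfl⟩ : ∃ C' : Finset V, C = (C' : Set V) := ⟨C.toFinset, by simp⟩
  obtain ⟨S', rfl⟩ : ∃ S' : Finset V, S = (S' : Set V) := ⟨S.toFinset, by simp⟩
  have hd' : ∀ x ∈ C', x ∉ S' := fun x h1 h2 => hd ⟨x, by simpa using ⟨h1, h2⟩⟩
  have hne : S'.Nonempty := by
    by_contra h
    rw [Finset.not_nonempty_iff_eq_empty] at h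
    obtain ⟨v⟩ := ‹Nonempty V›
    obtain ⟨s, hs, -⟩ := exists_adj hS (v := v) (by simp [h])
    rw [h] at hs
    simp at hs
  rw [Set.ncard_coe_finset, Set.ncard_coe_finset]
  exact ⟨five_le ht hc hC hS hd' hne, ten_le ht hc hC hS hd' hne⟩

theorem disjoint_pair' [Fintype V] [Nonempty V] (ht : Tri G) (hc : Tri Gᶜ) {C S : Set V}
    (hC : Maximal (fun T : Set V => G.IsClique T) C)
    (hS : Maximal (fun T : Set V => G.IsIndepSet T) S) (hd : ¬ (C ∩ S).Nonempty) :
    5 ≤ C.ncard ∧ 5 ≤ S.ncard ∧ (C.ncard = 5 → 10 ≤ S.ncard) ∧ (S.ncard = 5 → 10 ≤ C.ncard) := by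
  obtain ⟨h1, h2⟩ := disjoint_pair ht hc hC hS hd
  have hd' : ¬ (S ∩ C).Nonempty := by rwa [Set.inter_comm]
  have ht' : Tri Gᶜᶜ := by rwa [compl_compl]
  obtain ⟨h3, h4⟩ := disjoint_pair hc ht' (maximal_compl' hS) (maximal_compl hC) hd'
  exact ⟨h1, h3, h2, h4⟩

/-! ### Split graphs -/

section split

variable {w a : ℕ}

/-- The split graph with clique `Fin w`, stable set `Fin a` and the adjacency `R` between them. -/
def split (R : Fin w → Fin a → Prop) : SimpleGraph (Fin w ⊕ Fin a) where
  Adj x y := match x, y with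
    | Sum.inl i, Sum.inl j => i ≠ j
    | Sum.inl i, Sum.inr j => R i j
    | Sum.inr j, Sum.inl i => R i j
    | Sum.inr _, Sum.inr _ => False
  symm := ⟨by
    rintro (i | i) (j | j) h
    · exact fun h' => h h'.symm
    · exact h
    · exact h
    · exact h⟩
  loopless := ⟨by
    rintro (i | i) h
    · exact h rfl
    · exact h⟩

variable (R : Fin w → Fin a → Prop)

lemma adj_ll (i j : Fin w) : (split R).Adj (Sum.inl i) (Sum.inl j) ↔ i ≠ j := Iff.rfl
lemma adj_lr (i : Fin w) (j : Fin a) : (split R).Adj (Sum.inl i) (Sum.inr j) ↔ R i j := Iff.rfl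
lemma adj_rl (i : Fin w) (j : Fin a) : (split R).Adj (Sum.inr j) (Sum.inl i) ↔ R i j := Iff.rfl
lemma adj_rr (i j : Fin a) : ¬ (split R).Adj (Sum.inr i) (Sum.inr j) := fun h => h

variable {R}

theorem tri_split (hA : ∀ i i', ∃ j, R i j ∧ R i' j) : Tri (split R) := by
  intro X hX u v hu hv huv
  by_cases h : ∃ i, Sum.inl i ∈ X
  · obtain ⟨i, hi⟩ := h
    have key : ∀ x, x ∉ X → (split R).Adj (Sum.inl i) x := by
      rintro (k | k) hx
      · rw [adj_ll]
        rintro rfl
        exact hx hi
      · obtain ⟨s, hs, hadj⟩ := exists_adj hX hx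
        rcases s with i' | j'
        · by_cases hii : i = i'
          · subst hii
            exact hadj
          · exact absurd ((adj_ll R i i').2 hii) (hX.prop hi hs (by
              intro h3
              exact hii (Sum.inl.inj h3)))
        · exact absurd hadj (adj_rr R _ _)
    exact ⟨Sum.inl i, hi, key u hu, key v hv⟩
  · have hr : ∀ j, Sum.inr j ∈ X := by
      intro j
      by_contra hj
      obtain ⟨s, hs, hadj⟩ := exists_adj hX hj
      rcases s with i' | j'
      · exact h ⟨i', hs⟩
      · exact absurd hadj (adj_rr R _ _)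
    rcases u with i | k
    · rcases v with i' | k'
      · obtain ⟨j, h1, h2⟩ := hA i i'
        exact ⟨Sum.inr j, hr j, h1, h2⟩
      · exact absurd (hr k') hv
    · exact absurd (hr k) hu

theorem cotri_split (hB : ∀ j j', ∃ i, ¬ R i j ∧ ¬ R i j') : Tri (split R)ᶜ := by
  intro X hX u v hu hv huv
  by_cases h : ∃ j, Sum.inr j ∈ X
  · obtain ⟨j, hj⟩ := h
    have key : ∀ x, x ∉ X → (split R)ᶜ.Adj (Sum.inr j) x := by
      rintro (k | k) hx
      · obtain ⟨s, hs, hadj⟩ := exists_adj hX hx
        rw [SimpleGraph.compl_adj] at hadj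
        rcases s with i' | j'
        · exact absurd ((adj_ll R i' k).2 fun h3 => hadj.1 (by rw [h3])) hadj.2
        · by_cases hjj : j = j'
          · subst hjj
            rw [SimpleGraph.compl_adj]
            exact hadj
          · exfalso
            refine hX.prop hj hs (fun h3 => hjj (Sum.inr.inj h3)) ?_
            rw [SimpleGraph.compl_adj]
            exact ⟨fun h3 => hjj (Sum.inr.inj h3), adj_rr R _ _⟩
      · rw [SimpleGraph.compl_adj]
        refine ⟨?_, adj_rr R _ _⟩
        intro h3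
        rw [h3] at hj
        exact hx hj
    exact ⟨Sum.inr j, hj, key u hu, key v hv⟩
  · have hl : ∀ i, Sum.inl i ∈ X := by
      intro i
      by_contra hi
      obtain ⟨s, hs, hadj⟩ := exists_adj hX hi
      rw [SimpleGraph.compl_adj] at hadj
      rcases s with i' | j'
      · exact absurd ((adj_ll R i' i).2 fun h3 => hadj.1 (by rw [h3])) hadj.2
      · exact h ⟨j', hs⟩
    rcases u with i | k
    · exact absurd (hl i) hu
    · rcases v with i' | k'
      · exact absurd (hl i') hv
      · obtain ⟨i, h1, h2⟩ := hB k k'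
        refine ⟨Sum.inl i, hl i, ?_, ?_⟩
        · rw [SimpleGraph.compl_adj]
          exact ⟨(by intro h3; cases h3), h1⟩
        · rw [SimpleGraph.compl_adj]
          exact ⟨(by intro h3; cases h3), h2⟩

theorem maximal_l (hB : ∀ j j', ∃ i, ¬ R i j ∧ ¬ R i j') :
    Maximal (fun T : Set (Fin w ⊕ Fin a) => (split R).IsClique T) (Set.range Sum.inl) := by
  refine ⟨?_, ?_⟩
  · rintro _ ⟨i, rfl⟩ _ ⟨i', rfl⟩ hne
    rw [adj_ll]
    rintro rfl
    exact hne rfl
  · intro T hT hle x hx
    rcases x with i | j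
    · exact ⟨i, rfl⟩
    · exfalso
      obtain ⟨i, h1, -⟩ := hB j j
      exact h1 (hT (hle ⟨i, rfl⟩) hx (by intro h3; cases h3))

theorem maximal_r (hA : ∀ i i', ∃ j, R i j ∧ R i' j) :
    Maximal (fun T : Set (Fin w ⊕ Fin a) => (split R).IsIndepSet T) (Set.range Sum.inr) := by
  refine ⟨?_, ?_⟩
  · rintro _ ⟨i, rfl⟩ _ ⟨i', rfl⟩ hne
    exact adj_rr R _ _
  · intro T hT hle x hx
    rcases x with i | j
    · exfalso
      obtain ⟨j, h1, -⟩ := hA i i
      exact hT hx (hle ⟨j, rfl⟩) (by intro h3; cases h3) h1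
    · exact ⟨j, rfl⟩

theorem clique_le (hB : ∀ j j', ∃ i, ¬ R i j ∧ ¬ R i j') {K : Set (Fin w ⊕ Fin a)}
    (hK : (split R).IsClique K) : K.ncard ≤ w := by
  classical
  choose i hi using fun j => hB j j
  have h1 := Set.ncard_le_ncard_of_injOn (s := K) (t := (Set.univ : Set (Fin w)))
    (fun x : Fin w ⊕ Fin a => Sum.elim id i x) (fun _ _ => Set.mem_univ _) (by
      rintro (k | k) hk (l | l) hl hkl
      · simp only [Sum.elim_inl, id_eq] at hkl
        rw [hkl]
      · exfalso
        simp only [Sum.elim_inl, Sum.elim_inr, id_eq] at hkl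
        have h2 := hK hk hl (by intro h3; cases h3)
        rw [adj_lr, hkl] at h2
        exact (hi l).1 h2
      · exfalso
        simp only [Sum.elim_inl, Sum.elim_inr, id_eq] at hkl
        have h2 := hK hk hl (by intro h3; cases h3)
        rw [adj_rl, ← hkl] at h2
        exact (hi k).1 h2
      · by_contra hne
        exact adj_rr R _ _ (hK hk hl hne)) (Set.toFinite _)
  rwa [Set.ncard_univ, Nat.card_eq_fintype_card, Fintype.card_fin] at h1

theorem indep_le (hA : ∀ i i', ∃ j, R i j ∧ R i' j) {K : Set (Fin w ⊕ Fin a)}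
    (hK : (split R).IsIndepSet K) : K.ncard ≤ a := by
  classical
  choose j hj using fun i => hA i i
  have h1 := Set.ncard_le_ncard_of_injOn (s := K) (t := (Set.univ : Set (Fin a)))
    (fun x : Fin w ⊕ Fin a => Sum.elim j id x) (fun _ _ => Set.mem_univ _) (by
      rintro (k | k) hk (l | l) hl hkl
      · by_contra hne
        exact hK hk hl hne ((adj_ll R k l).2 fun h3 => hne (by rw [h3]))
      · exfalso
        simp only [Sum.elim_inl, Sum.elim_inr, id_eq] at hkl
        have h2 : ¬ (split R).Adj (Sum.inl k) (Sum.inr l) := hK hk hl (by intro h3; cases h3)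
        rw [adj_lr, ← hkl] at h2
        exact h2 (hj k).1
      · exfalso
        simp only [Sum.elim_inl, Sum.elim_inr, id_eq] at hkl
        have h2 : ¬ (split R).Adj (Sum.inr k) (Sum.inl l) := hK hk hl (by intro h3; cases h3)
        rw [adj_rl, hkl] at h2
        exact h2 (hj l).1
      · simp only [Sum.elim_inr, id_eq] at hkl
        rw [hkl]) (Set.toFinite _)
  rwa [Set.ncard_univ, Nat.card_eq_fintype_card, Fintype.card_fin] at h1

theorem cliqueNum_eq (hB : ∀ j j', ∃ i, ¬ R i j ∧ ¬ R i j') : (split R).cliqueNum = w := by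
  apply le_antisymm
  · obtain ⟨s, hs⟩ := (split R).exists_isNClique_cliqueNum
    rw [← hs.card_eq, ← Set.ncard_coe_finset]
    exact clique_le hB hs.isClique
  · have h1 : (split R).IsClique ((Finset.univ.map ⟨Sum.inl, Sum.inl_injective⟩ :
        Finset (Fin w ⊕ Fin a)) : Set (Fin w ⊕ Fin a)) := by
      have h2 : ((Finset.univ.map ⟨Sum.inl, Sum.inl_injective⟩ :
        Finset (Fin w ⊕ Fin a)) : Set (Fin w ⊕ Fin a)) = Set.range Sum.inl := by
        simp
      rw [h2]
      exact (maximal_l hB).prop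
    have h3 := h1.card_le_cliqueNum
    rwa [Finset.card_map, Finset.card_univ, Fintype.card_fin] at h3

theorem indepNum_eq (hA : ∀ i i', ∃ j, R i j ∧ R i' j) : (split R).indepNum = a := by
  apply le_antisymm
  · obtain ⟨s, hs⟩ := (split R).exists_isNIndepSet_indepNum
    rw [← hs.card_eq, ← Set.ncard_coe_finset]
    exact indep_le hA hs.isIndepSet
  · have h1 : (split R).IsIndepSet ((Finset.univ.map ⟨Sum.inr, Sum.inr_injective⟩ :
        Finset (Fin w ⊕ Fin a)) : Set (Fin w ⊕ Fin a)) := by
      have h2 : ((Finset.univ.map ⟨Sum.inr, Sum.inr_injective⟩ :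
        Finset (Fin w ⊕ Fin a)) : Set (Fin w ⊕ Fin a)) = Set.range Sum.inr := by
        simp
      rw [h2]
      exact (maximal_r hA).prop
    have h3 := h1.card_le_indepNum
    rwa [Finset.card_map, Finset.card_univ, Fintype.card_fin] at h3

end split

/-! ### The designs -/

/-- `Fin n → Fin m`, `i ↦ min i (m - 1)`. -/
def pr {n m : ℕ} (hm : 0 < m) (i : Fin n) : Fin m := ⟨min i (m - 1), by omega⟩

lemma pr_surj {n m : ℕ} (hm : 0 < m) (h : m ≤ n) (j : Fin m) : ∃ i : Fin n, pr hm i = j := by
  refine ⟨⟨j, lt_of_lt_of_le j.2 h⟩, ?_⟩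
  apply Fin.ext
  show min (j : ℕ) (m - 1) = j
  have := j.2
  omega

/-- A pair of designs `R` on `Fin w₀ × Fin a₀` lifts to all larger numbers. -/
theorem lift {w₀ a₀ w a : ℕ} (hw0 : 0 < w₀) (ha0 : 0 < a₀) (hw : w₀ ≤ w) (ha : a₀ ≤ a)
    (R : Fin w₀ → Fin a₀ → Prop) (hA : ∀ i i', ∃ j, R i j ∧ R i' j)
    (hB : ∀ j j', ∃ i, ¬ R i j ∧ ¬ R i j') :
    ∃ R' : Fin w → Fin a → Prop, (∀ i i', ∃ j, R' i j ∧ R' i' j) ∧
      ∀ j j', ∃ i, ¬ R' i j ∧ ¬ R' i j' := by
  refine ⟨fun i j => R (pr hw0 i) (pr ha0 j), ?_, ?_⟩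
  · intro i i'
    obtain ⟨j, h1, h2⟩ := hA (pr hw0 i) (pr hw0 i')
    obtain ⟨k, rfl⟩ := pr_surj ha0 ha j
    exact ⟨k, h1, h2⟩
  · intro j j'
    obtain ⟨i, h1, h2⟩ := hB (pr ha0 j) (pr ha0 j')
    obtain ⟨k, rfl⟩ := pr_surj hw0 hw i
    exact ⟨k, h1, h2⟩

/-- Six triples of six points: pairwise meeting, and every four points contain one of them;
`D6 i j` says that `i` is not in the `j`-th triple. -/
def D6 (i j : Fin 6) : Bool :=
  ![![false, false, true, false, true, true],
    ![true, true, false, false, false, true],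
    ![true, false, true, true, false, false],
    ![true, false, false, true, true, false],
    ![false, true, false, true, false, true],
    ![false, true, true, false, true, false]] i j

/-- The ten pairs of five points. -/
def D5 (i : Fin 5) (j : Fin 10) : Bool :=
  ![![true, true, true, true, false, false, false, false, false, false],
    ![true, false, false, false, true, true, true, false, false, false],
    ![false, true, false, false, true, false, false, true, true, false],
    ![false, false, true, false, false, true, false, true, false, true],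
    ![false, false, false, true, false, false, true, false, true, true]] i j

lemma D6_A : ∀ i i' : Fin 6, ∃ j, D6 i j = true ∧ D6 i' j = true := by decide
lemma D6_B : ∀ j j' : Fin 6, ∃ i, ¬ D6 i j = true ∧ ¬ D6 i j' = true := by decide
lemma D5_A : ∀ i i' : Fin 5, ∃ j, D5 i j = true ∧ D5 i' j = true := by decide
lemma D5_B : ∀ j j' : Fin 10, ∃ i, ¬ D5 i j = true ∧ ¬ D5 i j' = true := by decide

/-- The pairs `(w, a)` for which a bound `w` for the cliques and `a` for the stable sets forces all
maximal cliques to meet all maximal stable sets. -/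
def Small (w a : ℕ) : Prop := w ≤ 4 ∨ a ≤ 4 ∨ (w ≤ 5 ∧ a ≤ 9) ∨ (w ≤ 9 ∧ a ≤ 5)

theorem exists_design {w a : ℕ} (h : ¬ Small w a) :
    ∃ R : Fin w → Fin a → Prop, (∀ i i', ∃ j, R i j ∧ R i' j) ∧
      ∀ j j', ∃ i, ¬ R i j ∧ ¬ R i j' := by
  unfold Small at h
  have h1 : (6 ≤ w ∧ 6 ≤ a) ∨ (5 ≤ w ∧ 10 ≤ a) ∨ (10 ≤ w ∧ 5 ≤ a) := by omega
  rcases h1 with ⟨h1, h2⟩ | ⟨h1, h2⟩ | ⟨h1, h2⟩
  · exact lift (by norm_num) (by norm_num) h1 h2 (fun i j => D6 i j = true) D6_A D6_B
  · exact lift (by norm_num) (by norm_num) h1 h2 (fun i j => D5 i j = true) D5_A D5_B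
  · refine lift (by norm_num) (by norm_num) h1 h2
      (fun (i : Fin 10) (j : Fin 5) => ¬ D5 j i = true) D5_B ?_
    intro j j'
    obtain ⟨i, h3, h4⟩ := D5_A j j'
    exact ⟨i, not_not.2 h3, not_not.2 h4⟩

/-- Under the bounds every maximal clique meets every maximal stable set. -/
theorem cis_of_small [Fintype V] [Nonempty V] (ht : Tri G) (hc : Tri Gᶜ)
    (h : Small G.cliqueNum G.indepNum ∨ Fintype.card V ≤ 11) {C S : Set V}
    (hC : Maximal (fun T : Set V => G.IsClique T) C)
    (hS : Maximal (fun T : Set V => G.IsIndepSet T) S) : (C ∩ S).Nonempty := by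
  classical
  by_contra hd
  obtain ⟨h1, h2, h3, h4⟩ := disjoint_pair' ht hc hC hS hd
  have h5 : C.ncard ≤ G.cliqueNum := by
    obtain ⟨C', rfl⟩ : ∃ C' : Finset V, C = (C' : Set V) := ⟨C.toFinset, by simp⟩
    rw [Set.ncard_coe_finset]
    exact SimpleGraph.IsClique.card_le_cliqueNum (tc := hC.prop)
  have h6 : S.ncard ≤ G.indepNum := by
    obtain ⟨S', rfl⟩ : ∃ S' : Finset V, S = (S' : Set V) := ⟨S.toFinset, by simp⟩
    rw [Set.ncard_coe_finset]
    exact SimpleGraph.IsIndepSet.card_le_indepNum hS.prop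
  rcases h with h | h
  · unfold Small at h
    omega
  · have h7 : (C ∪ S).ncard = C.ncard + S.ncard :=
      Set.ncard_union_eq (Set.disjoint_iff_inter_eq_empty.2 (Set.not_nonempty_iff_eq_empty.1 hd))
        (Set.toFinite _) (Set.toFinite _)
    have h8 : (C ∪ S).ncard ≤ Fintype.card V := by
      rw [← Nat.card_eq_fintype_card, ← Set.ncard_univ]
      exact Set.ncard_le_ncard (Set.subset_univ _) (Set.toFinite _)
    omega

lemma exists_maximal_clique [Finite V] (G : SimpleGraph V) (v : V) :
    ∃ C : Set V, Maximal (fun T : Set V => G.IsClique T) C ∧ v ∈ C := by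
  obtain ⟨C, h1, h2⟩ := Finite.exists_le_maximal (p := fun T : Set V => G.IsClique T)
    (a := {v}) (Set.pairwise_singleton _ _)
  exact ⟨C, h2, h1 rfl⟩

lemma exists_maximal_indep [Finite V] (G : SimpleGraph V) (v : V) :
    ∃ C : Set V, Maximal (fun T : Set V => G.IsIndepSet T) C ∧ v ∈ C := by
  obtain ⟨C, h1, h2⟩ := Finite.exists_le_maximal (p := fun T : Set V => G.IsIndepSet T)
    (a := {v}) (Set.pairwise_singleton _ _)
  exact ⟨C, h2, h1 rfl⟩

end Pool.Agent.Lib.MPde1832.SC
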